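import Mathlib
import Pool.Agent.Lib.helper4.Planar

namespace Pool.Agent.Results.MP_366529_co.RotorChanges

open Pool.Agent.Lib.H4Planar

/-- `p` gives a plane embedding of `G` in which every edge is the straight segment between its
ends: the open segment of an edge contains no vertex and meets no other edge. -/
def IsPlaneDrawing {V : Type} (G : SimpleGraph V) (p : V → ℂ) : Prop :=
  Function.Injective p ∧
    (∀ u v w, G.Adj u v → p w ∉ openSegment ℝ (p u) (p v)) ∧
    ∀ u v x y, G.Adj u v → G.Adj x y → s(u, v) ≠ s(x, y) →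
      Disjoint (openSegment ℝ (p u) (p v)) (segment ℝ (p x) (p y))

/-- `x` is a vertex of attachment of the subgraph `R` of `G`. -/
def IsAttachment {V : Type} {G : SimpleGraph V} (R : G.Subgraph) (x : V) : Prop :=
  (∃ y, R.Adj x y) ∧ ∃ y, G.Adj x y ∧ ¬ R.Adj x y

/-- In the drawing `p`, the subgraph `R` lies in the closed disc with centre `c` and radius `ρ`,
the rest of `G` lies outside, and the boundary circle meets the drawing exactly in the vertices of
attachment. -/
def InDisc {V : Type} {G : SimpleGraph V} (R : G.Subgraph) (p : V → ℂ) (c : ℂ) (ρ : ℝ) : Prop :=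
  (∀ x, IsAttachment R x → ‖p x - c‖ = ρ) ∧
    (∀ x ∈ R.verts, ¬ IsAttachment R x → ‖p x - c‖ < ρ) ∧
    (∀ x, x ∉ R.verts → ρ < ‖p x - c‖) ∧
    (∀ x y, R.Adj x y → ∀ z ∈ openSegment ℝ (p x) (p y), ‖z - c‖ < ρ) ∧
    ∀ x y, G.Adj x y → ¬ R.Adj x y → ∀ z ∈ openSegment ℝ (p x) (p y), ρ < ‖z - c‖

/-- `R` is a rotor of order `n` of `G` with vertices of attachment `v 0, …, v (n-1)`. -/
def IsRotor {V : Type} {G : SimpleGraph V} (R : G.Subgraph) (n : ℕ) (v : ZMod n → V) : Prop :=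
  0 < n ∧ Function.Injective v ∧ (∀ x, IsAttachment R x ↔ ∃ i, x = v i) ∧
    ∃ (p : V → ℂ) (c : ℂ) (ρ : ℝ), 0 < ρ ∧ IsPlaneDrawing G p ∧ InDisc R p c ρ ∧
      ∃ θ : V → V, Set.BijOn θ R.verts R.verts ∧
        (∀ x ∈ R.verts, ∀ y ∈ R.verts, R.Adj (θ x) (θ y) ↔ R.Adj x y) ∧
        (∀ x ∈ R.verts, p (θ x) - c = Complex.exp (2 * Real.pi * Complex.I / n) * (p x - c)) ∧
        ∀ i, θ (v i) = v (i + 1)

/-- `G'` arises from `G` by flipping `R`: the edges outside `R` are kept, and `R` is glued back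
with `v i` identified with `v (-i)`, its other vertices keeping their names. -/
def IsFlip {V : Type} {G : SimpleGraph V} (R : G.Subgraph) {n : ℕ} (v : ZMod n → V)
    (G' : SimpleGraph V) : Prop :=
  ∃ f : V → V, (∀ i, f (v i) = v (-i)) ∧ (∀ x, (∀ i, x ≠ v i) → f x = x) ∧
    ∀ a b, G'.Adj a b ↔ (G.Adj a b ∧ ¬ R.Adj a b) ∨ ∃ x y, R.Adj x y ∧ a = f x ∧ b = f y

def P : Fin 29 → ℤ × ℤ := ![(3, -1), (4, -1), (1, 2), (1, 3), (-2, 3), (-3, 4), (-3, 1), (3, -4),
  (2, -3), (-1, -3), (-1, -2), (-4, 1), (0, 5), (4, 1), (-1, 5), (-5, 5), (-3, 7), (0, 11), (5, 0),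
  (8, -2), (5, -4), (5, -5), (1, -5), (6, -11), (0, -5), (-4, -1), (-5, 4), (-5, 0), (-3, -6)]

def ER : List (Fin 29 × Fin 29) := [(21, 9), (18, 7), (12, 1), (27, 5), (15, 3), (24, 11),
  (18, 20), (12, 13), (27, 26), (15, 14), (24, 25), (21, 22), (8, 9), (0, 7), (2, 1), (6, 5),
  (4, 3), (10, 11), (2, 3), (6, 11), (4, 5), (10, 9), (8, 7), (0, 1), (5, 26), (3, 14), (9, 22),
  (1, 13), (11, 25), (7, 20), (10, 8), (8, 0), (2, 0), (2, 4), (6, 10), (4, 6), (15, 26), (24, 22),
  (21, 20), (18, 13), (12, 14), (27, 25), (5, 11), (3, 1), (3, 5), (9, 7), (11, 9), (7, 1)]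

def ES : List (Fin 29 × Fin 29) := [(15, 17), (18, 19), (27, 28), (16, 17), (19, 23), (15, 16),
  (18, 17), (24, 28), (21, 19), (12, 16), (21, 23), (19, 17), (28, 23), (24, 23)]

def adjB (E : List (Fin 29 × Fin 29)) (a b : Fin 29) : Bool :=
  E.any fun e => (e.1 == a && e.2 == b) || (e.1 == b && e.2 == a)

theorem adjB_iff (E : List (Fin 29 × Fin 29)) (a b : Fin 29) :
    adjB E a b = true ↔ (a, b) ∈ E ∨ (b, a) ∈ E := by
  simp only [adjB, List.any_eq_true, Bool.or_eq_true, Bool.and_eq_true, beq_iff_eq]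
  constructor
  · rintro ⟨⟨x, y⟩, he, ⟨rfl, rfl⟩ | ⟨rfl, rfl⟩⟩
    · exact Or.inl he
    · exact Or.inr he
  · rintro (h | h)
    · exact ⟨_, h, Or.inl ⟨rfl, rfl⟩⟩
    · exact ⟨_, h, Or.inr ⟨rfl, rfl⟩⟩

theorem adjB_symm (E : List (Fin 29 × Fin 29)) (a b : Fin 29) (h : adjB E a b = true) :
    adjB E b a = true := by
  rw [adjB_iff] at *; exact h.symm

def mkG (E : List (Fin 29 × Fin 29)) (h : ∀ a, adjB E a a = false) : SimpleGraph (Fin 29) where
  Adj a b := adjB E a b = true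
  symm := ⟨fun a b => adjB_symm E a b⟩
  loopless := ⟨fun a => by simp [h a]⟩

def flipV : Fin 29 → Fin 29 := ![0, 1, 2, 3, 4, 5, 6, 7, 8, 9, 10, 11, 21, 13, 14, 24, 16, 17, 18,
  19, 20, 12, 22, 23, 15, 25, 26, 27, 28]

def th : Fin 29 → Fin 29 := ![2, 3, 4, 5, 6, 11, 10, 1, 0, 7, 8, 9, 15, 14, 26, 27, 16, 17, 12, 19,
  13, 18, 20, 23, 21, 22, 25, 24, 28]

def vv : Fin 6 → Fin 29 := ![18, 12, 15, 27, 24, 21]

def inR (x : Fin 29) : Bool := !(x == 16 || x == 28 || x == 19 || x == 23 || x == 17)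

def G0 : SimpleGraph (Fin 29) := mkG (ER ++ ES) (by decide +kernel)

def G1 : SimpleGraph (Fin 29) :=
  mkG (ER.map (fun e => (flipV e.1, flipV e.2)) ++ ES) (by decide +kernel)

def R0 : G0.Subgraph where
  verts := {x | inR x = true}
  Adj a b := adjB ER a b = true
  adj_sub := by
    intro a b h
    show adjB (ER ++ ES) a b = true
    rw [adjB_iff] at *
    simp only [List.mem_append]
    exact h.elim (fun h => Or.inl (Or.inl h)) (fun h => Or.inr (Or.inl h))
  edge_vert := by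
    have : ∀ a b, adjB ER a b = true → inR a = true := by decide +kernel
    intro a b h
    exact this a b h
  symm := ⟨fun a b => adjB_symm ER a b⟩

noncomputable def zeta : ℂ := ⟨1 / 2, √3 / 2⟩

noncomputable def L (q : ℝ × ℝ) : ℂ := q.1 + q.2 * zeta

theorem L_re (q : ℝ × ℝ) : (L q).re = q.1 + q.2 / 2 := by simp [L, zeta]; ring
theorem L_im (q : ℝ × ℝ) : (L q).im = q.2 * (√3 / 2) := by simp [L, zeta]

theorem L_inj : Function.Injective L := by
  intro a b h
  have h1 := congrArg Complex.re h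
  have h2 := congrArg Complex.im h
  rw [L_re, L_re] at h1
  rw [L_im, L_im] at h2
  have h3 : a.2 = b.2 := mul_right_cancel₀ (by positivity) h2
  exact Prod.ext (by linarith) h3

theorem L_norm (q : ℝ × ℝ) : ‖L q‖ ^ 2 = q.1 ^ 2 + q.1 * q.2 + q.2 ^ 2 := by
  rw [Complex.sq_norm, Complex.normSq_apply, L_re, L_im]
  have : √3 * √3 = 3 := Real.mul_self_sqrt (by norm_num)
  linear_combination (q.2 ^ 2 / 4) * this

noncomputable def pp (x : Fin 29) : ℂ := L ((P x).1, (P x).2)

theorem seg_mem {u v : Fin 29} {z : ℂ} (h : z ∈ segment ℝ (pp u) (pp v)) :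
    ∃ t, 0 ≤ t ∧ t ≤ 1 ∧ z = L (seg (P u) (P v) t) := by
  rw [segment_eq_image] at h
  obtain ⟨t, ht, rfl⟩ := h
  refine ⟨t, ht.1, ht.2, ?_⟩
  simp [pp, L, seg]; ring

theorem oseg_mem {u v : Fin 29} {z : ℂ} (h : z ∈ openSegment ℝ (pp u) (pp v)) :
    ∃ t, 0 < t ∧ t < 1 ∧ z = L (seg (P u) (P v) t) := by
  rw [openSegment_eq_image] at h
  obtain ⟨t, ht, rfl⟩ := h
  refine ⟨t, ht.1, ht.2, ?_⟩
  simp [pp, L, seg]; ring

theorem P_inj : Function.Injective P := by
  have : ∀ a b, P a = P b → a = b := by decide +kernel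
  exact this

theorem sep_disj {u v x y : Fin 29} (h : Sep (P u) (P v) (P x) (P y)) :
    Disjoint (openSegment ℝ (pp u) (pp v)) (segment ℝ (pp x) (pp y)) := by
  rw [Set.disjoint_left]
  intro z h1 h2
  obtain ⟨t, t0, t1, e1⟩ := oseg_mem h1
  obtain ⟨r, r0, r1, e2⟩ := seg_mem h2
  rcases h t r t0.le t1.le r0 r1 (L_inj (e1.symm.trans e2)) with h | h <;> linarith

theorem drawing0 : IsPlaneDrawing G0 pp := by
  have c1 : (ER ++ ES).all (fun e => (List.finRange 29).all
      (fun w => sep (P e.1) (P e.2) (P w) (P w))) = true := by decide +kernel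
  have c2 : (ER ++ ES).all (fun e => (ER ++ ES).all
      (fun f => decide (e = f) || sep (P e.1) (P e.2) (P f.1) (P f.2))) = true := by
    decide +kernel
  simp only [List.all_eq_true, Bool.or_eq_true, decide_eq_true_eq] at c1 c2
  refine ⟨?_, ?_, ?_⟩
  · intro a b h
    have := L_inj h
    simp only [Prod.mk.injEq, Int.cast_inj] at this
    exact P_inj (Prod.ext this.1 this.2)
  · intro u v w huv hw
    have hne : P u ≠ P v := fun h => huv.ne (P_inj h)
    have hS : Sep (P u) (P v) (P w) (P w) := by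
      rcases (adjB_iff _ _ _).1 huv with h1 | h1
      · exact Sep_of_sep hne (c1 _ h1 w (List.mem_finRange w))
      · exact (Sep_of_sep hne.symm (c1 _ h1 w (List.mem_finRange w))).swap_left
    exact Set.disjoint_left.1 (sep_disj hS) hw (left_mem_segment _ _ _)
  · intro u v x y huv hxy hne
    have hne' : P u ≠ P v := fun h => huv.ne (P_inj h)
    apply sep_disj
    rcases (adjB_iff _ _ _).1 huv with h1 | h1 <;> rcases (adjB_iff _ _ _).1 hxy with h2 | h2
    · rcases c2 _ h1 _ h2 with h3 | h3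
      · exact absurd (by cases h3; rfl) hne
      · exact Sep_of_sep hne' h3
    · rcases c2 _ h1 _ h2 with h3 | h3
      · exact absurd (by cases h3; exact Sym2.eq_swap) hne
      · exact (Sep_of_sep hne' h3).swap_right
    · rcases c2 _ h1 _ h2 with h3 | h3
      · exact absurd (by cases h3; exact Sym2.eq_swap) hne
      · exact (Sep_of_sep hne'.symm h3).swap_left
    · rcases c2 _ h1 _ h2 with h3 | h3
      · exact absurd (by cases h3; rfl) hne
      · exact (Sep_of_sep hne'.symm h3).swap_left.swap_right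

def nn (A : ℤ × ℤ) : ℤ := A.1 ^ 2 + A.1 * A.2 + A.2 ^ 2
def dd (A B : ℤ × ℤ) : ℤ := nn (B.1 - A.1, B.2 - A.2)

theorem seg_norm (A B : ℤ × ℤ) (t : ℝ) :
    ‖L (seg A B t)‖ ^ 2 = (1 - t) * nn A + t * nn B - t * (1 - t) * dd A B := by
  rw [L_norm]; simp only [seg, nn, dd]; push_cast; ring

theorem lt5 {z : ℂ} (h : ‖z‖ ^ 2 < 25) : ‖z - 0‖ < 5 := by
  rw [sub_zero]; nlinarith [norm_nonneg z]

theorem gt5 {z : ℂ} (h : 25 < ‖z‖ ^ 2) : 5 < ‖z - 0‖ := by
  rw [sub_zero]; nlinarith [norm_nonneg z]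

theorem pp_norm (x : Fin 29) : ‖pp x‖ ^ 2 = nn (P x) := by
  rw [pp, L_norm]; simp [nn]

def outs (A B : ℤ × ℤ) : Bool :=
  decide (0 < dd A B) && ((decide (25 ≤ nn A) && decide (0 ≤ nn B - nn A - dd A B)) ||
  (decide (25 ≤ nn B) && decide (0 ≤ nn A - nn B - dd A B)) ||
  decide ((nn B - nn A - dd A B) ^ 2 < 4 * dd A B * (nn A - 25)))

theorem outs_ok {A B : ℤ × ℤ} (h : outs A B = true) {t : ℝ} (t0 : 0 < t) (t1 : t < 1) :
    25 < ‖L (seg A B t)‖ ^ 2 := by
  rw [seg_norm]
  simp only [outs, Bool.and_eq_true, Bool.or_eq_true, decide_eq_true_eq] at h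
  obtain ⟨hd, h⟩ := h
  have hd' : (0 : ℝ) < dd A B := by exact_mod_cast hd
  rcases h with (⟨h1, h2⟩ | ⟨h1, h2⟩) | h
  · have a1 : (25 : ℝ) ≤ nn A := by exact_mod_cast h1
    have a2 : (0 : ℝ) ≤ nn B - nn A - dd A B := by exact_mod_cast h2
    nlinarith [mul_nonneg t0.le a2, mul_pos (mul_pos t0 t0) hd']
  · have a1 : (25 : ℝ) ≤ nn B := by exact_mod_cast h1
    have a2 : (0 : ℝ) ≤ nn A - nn B - dd A B := by exact_mod_cast h2
    have s0 : 0 < 1 - t := by linarith
    nlinarith [mul_nonneg s0.le a2, mul_pos (mul_pos s0 s0) hd']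
  · have a : ((nn B : ℝ) - nn A - dd A B) ^ 2 < 4 * dd A B * (nn A - 25) := by exact_mod_cast h
    by_contra hc
    push Not at hc
    nlinarith [sq_nonneg (2 * (dd A B : ℝ) * t + ((nn B : ℝ) - nn A - dd A B)),
      mul_nonneg hd'.le (sub_nonneg.2 hc)]

theorem att (x : Fin 29) : IsAttachment R0 x ↔ ∃ i : Fin 6, x = vv i := by
  have : ∀ x : Fin 29, ((∃ y, adjB ER x y = true) ∧
      ∃ y, adjB (ER ++ ES) x y = true ∧ ¬ adjB ER x y = true) ↔ ∃ i : Fin 6, x = vv i := by
    decide +kernel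
  exact this x

theorem inDisc0 : InDisc R0 pp 0 5 := by
  refine ⟨?_, ?_, ?_, ?_, ?_⟩
  · intro x hx
    obtain ⟨i, rfl⟩ := (att x).1 hx
    have h : ∀ i, nn (P (vv i)) = 25 := by decide +kernel
    have h2 := pp_norm (vv i)
    rw [h] at h2
    rw [sub_zero]
    push_cast at h2
    nlinarith [norm_nonneg (pp (vv i))]
  · intro x hx hx'
    rw [att] at hx'
    have h : ∀ x, inR x = true → (¬ ∃ i : Fin 6, x = vv i) → nn (P x) < 25 := by decide +kernel
    apply lt5
    rw [pp_norm]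
    exact_mod_cast h x hx hx'
  · intro x hx
    have h : ∀ x, ¬ inR x = true → 25 < nn (P x) := by decide +kernel
    apply gt5
    rw [pp_norm]
    exact_mod_cast h x hx
  · intro x y hxy z hz
    have h : ∀ x y, adjB ER x y = true →
        nn (P x) ≤ 25 ∧ nn (P y) ≤ 25 ∧ 0 < dd (P x) (P y) := by decide +kernel
    obtain ⟨h1, h2, h3⟩ := h x y hxy
    obtain ⟨t, t0, t1, rfl⟩ := oseg_mem hz
    apply lt5
    rw [seg_norm]
    have a1 : (nn (P x) : ℝ) ≤ 25 := by exact_mod_cast h1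
    have a2 : (nn (P y) : ℝ) ≤ 25 := by exact_mod_cast h2
    have a3 : (0 : ℝ) < dd (P x) (P y) := by exact_mod_cast h3
    have s0 : 0 < 1 - t := by linarith
    nlinarith [mul_pos (mul_pos t0 s0) a3, mul_nonneg t0.le (sub_nonneg.2 a2),
      mul_nonneg s0.le (sub_nonneg.2 a1)]
  · intro x y hxy hn z hz
    have h : ∀ x y, adjB (ER ++ ES) x y = true → ¬ adjB ER x y = true →
        outs (P x) (P y) = true := by decide +kernel
    obtain ⟨t, t0, t1, rfl⟩ := oseg_mem hz
    exact gt5 (outs_ok (h x y hxy hn) t0 t1)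

theorem exp_eq : Complex.exp (2 * Real.pi * Complex.I / (6 : ℕ)) = zeta := by
  have : (2 * Real.pi * Complex.I / (6 : ℕ) : ℂ) = ((Real.pi / 3 : ℝ) : ℂ) * Complex.I := by
    push_cast; ring
  rw [this]
  apply Complex.ext
  · rw [Complex.exp_ofReal_mul_I_re, Real.cos_pi_div_three]; rfl
  · rw [Complex.exp_ofReal_mul_I_im, Real.sin_pi_div_three]; rfl

theorem zeta_sq : zeta * zeta = zeta - 1 := by
  have : √3 * √3 = 3 := Real.mul_self_sqrt (by norm_num)
  apply Complex.ext
  · simp [zeta]; linear_combination (-1 / 4) * this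
  · simp [zeta]; ring

theorem rotor0 : IsRotor R0 6 vv := by
  refine ⟨by norm_num, ?_, att, pp, 0, 5, by norm_num, drawing0, inDisc0, th, ⟨?_, ?_, ?_⟩, ?_,
    ?_, ?_⟩
  · have : ∀ a b : Fin 6, vv a = vv b → a = b := by decide +kernel
    exact this
  · have : ∀ x, inR x = true → inR (th x) = true := by decide +kernel
    exact this
  · have : ∀ a b, th a = th b → a = b := by decide +kernel
    exact fun a _ b _ h => this a b h
  · have : ∀ y, inR y = true → ∃ x, inR x = true ∧ th x = y := by decide +kernel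
    exact fun y hy => this y hy
  · have : ∀ x y, adjB ER (th x) (th y) = true ↔ adjB ER x y = true := by decide +kernel
    exact fun x _ y _ => this x y
  · have : ∀ x, inR x = true → P (th x) = (-(P x).2, (P x).1 + (P x).2) := by decide +kernel
    intro x hx
    rw [exp_eq, sub_zero, sub_zero, pp, pp, this x hx]
    simp only [L]
    push_cast
    linear_combination (-((P x).2 : ℂ)) * zeta_sq
  · have : ∀ i : Fin 6, th (vv i) = vv (i + 1) := by decide +kernel
    exact this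

theorem flip0 : IsFlip R0 (n := 6) vv G1 := by
  refine ⟨flipV, ?_, ?_, ?_⟩
  · have : ∀ i : Fin 6, flipV (vv i) = vv (-i) := by decide +kernel
    exact this
  · have : ∀ x, (∀ i : Fin 6, x ≠ vv i) → flipV x = x := by decide +kernel
    exact this
  · have h1 : ∀ x, flipV (flipV x) = x := by decide +kernel
    have h2 : ∀ a b, adjB (ER.map (fun e => (flipV e.1, flipV e.2)) ++ ES) a b = true ↔
        (adjB (ER ++ ES) a b = true ∧ ¬ adjB ER a b = true) ∨
          adjB ER (flipV a) (flipV b) = true := by decide +kernel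
    intro a b
    refine (h2 a b).trans (or_congr Iff.rfl ⟨fun h => ⟨_, _, h, (h1 a).symm, (h1 b).symm⟩, ?_⟩)
    rintro ⟨x, y, h, rfl, rfl⟩
    rw [h1, h1]; exact h

def nb (k : ℕ) : List ℕ :=
  (ER ++ ES).filterMap fun e =>
    if e.1.val = k ∧ e.2.val < k then some e.2.val
    else if e.2.val = k ∧ e.1.val < k then some e.1.val else none

def go : ℕ → ℕ → (ℕ → ℕ) → Bool
  | 0, _, _ => true
  | f + 1, k, c => [0, 1, 2].any fun a =>
      (nb k).all (fun j => c j != a) && go f (k + 1) (fun i => if i = k then a else c i)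

theorem go_ok (col : ℕ → ℕ) (h3 : ∀ i, col i < 3) (h : ∀ k, ∀ j ∈ nb k, j < k ∧ col j ≠ col k) :
    ∀ f k c, (∀ j < k, c j = col j) → go f k c = true := by
  intro f
  induction f with
  | zero => intros; rfl
  | succ f ih =>
    intro k c hc
    simp only [go, List.any_eq_true, Bool.and_eq_true, List.all_eq_true, bne_iff_ne]
    refine ⟨col k, ?_, fun j hj => ?_, ih _ _ fun j hj => ?_⟩
    · have := h3 k
      simp only [List.mem_cons, List.not_mem_nil, or_false]; omega
    · rw [hc j (h k j hj).1]; exact (h k j hj).2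
    · by_cases e : j = k
      · simp [e]
      · simp only [e, if_false]; exact hc j (by omega)

theorem noCol : IsEmpty (G0.Coloring (Fin 3)) := by
  refine ⟨fun C => ?_⟩
  have h0 : go 29 0 (fun _ => 0) = false := by decide +kernel
  have := go_ok (fun i => if h : i < 29 then (C ⟨i, h⟩).val else 0)
    (fun i => by
      split_ifs with h
      · exact (C _).2
      · norm_num)
    (fun k j hj => by
      simp only [nb, List.mem_filterMap] at hj
      obtain ⟨⟨a, b⟩, he, hj⟩ := hj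
      have hab : C a ≠ C b := C.valid ((adjB_iff _ _ _).2 (Or.inl he))
      split_ifs at hj with c1 c2
      · obtain ⟨rfl, c⟩ := c1
        cases hj
        exact ⟨c, by simpa [Fin.val_inj] using hab.symm⟩
      · obtain ⟨rfl, c⟩ := c2
        cases hj
        exact ⟨c, by simpa [Fin.val_inj] using hab⟩) 29 0 (fun _ => 0) (by simp)
  rw [h0] at this
  cases this

def col1 : Fin 29 → Fin 3 := ![0, 1, 2, 0, 1, 2, 0, 2, 1, 0, 2, 1, 2, 0, 1, 0, 1, 2, 1, 0, 0, 2, 1,
  1, 2, 2, 0, 1, 0]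

theorem hasCol : Nonempty (G1.Coloring (Fin 3)) := by
  have : ∀ a b, adjB (ER.map (fun e => (flipV e.1, flipV e.2)) ++ ES) a b = true →
      col1 a ≠ col1 b := by decide +kernel
  exact ⟨SimpleGraph.Coloring.mk col1 fun {a b} h => this a b h⟩

/-- Flipping a rotor of a planar graph can change the number of proper colourings. -/
theorem result : ∃ (N : ℕ) (G : SimpleGraph (Fin N)) (R : G.Subgraph) (n : ℕ)
    (v : ZMod n → Fin N) (G' : SimpleGraph (Fin N)) (k : ℕ),
    IsRotor R n v ∧ IsFlip R v G' ∧ 0 < k ∧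
      Nat.card (G'.Coloring (Fin k)) ≠ Nat.card (G.Coloring (Fin k)) := by
  refine ⟨29, G0, R0, 6, vv, G1, 3, rotor0, flip0, by norm_num, ?_⟩
  haveI := noCol
  haveI := hasCol
  rw [Nat.card_of_isEmpty (α := G0.Coloring (Fin 3))]
  haveI : Finite (G1.Coloring (Fin 3)) :=
    Finite.of_injective (fun C => (C : Fin 29 → Fin 3)) DFunLike.coe_injective
  exact Nat.card_pos.ne'

end Pool.Agent.Results.MP_366529_co.RotorChanges
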